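import Pool.Agent.JEL.Main

/-!
# Thermodynamic limit of jellium with hard cores

Full answer to Q1 of MP_325d2c_mp: for every hard core diameter `a > 0`, inverse temperature
`β > 0` and density `0 < ρ < √2 / a³` (all densities below close packing) the limit of
`|Λ_j|⁻¹ ln Z_a(Λ_j)` exists and is the same for all neutral Van Hove sequences.
-/

open MeasureTheory Filter Topology

namespace Pool.Agent.Results.MP_325d2c_mp.ThermodynamicLimit

open Pool.Agent.JEL

theorem result : ∀ a ρ : ℝ, 0 < a → 0 < ρ → ρ < Real.sqrt 2 / a ^ 3 →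
    ∃ g : ℝ → ℝ, ConvexOn ℝ (Set.Ioi 0) g ∧
      ∀ (Λ : ℕ → Set (EuclideanSpace ℝ (Fin 3))) (N : ℕ → ℕ), Regular ρ Λ N →
        (∀ β : ℝ, 0 < β → Tendsto (fun j => gdens a β ρ (Λ j) (N j)) atTop (𝓝 (g β))) ∧
        ∀ β d : ℝ, 0 < β → HasDerivAt g d β →
          Tendsto (fun j => udens a β ρ (Λ j) (N j)) atTop (𝓝 (-d)) :=
  fun a ρ ha hρ hρa => main_of cFin cGrif cDerZ cLens a ρ ha hρ hρa

end Pool.Agent.Results.MP_325d2c_mp.ThermodynamicLimit
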